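import Pool.Agent.T6.H44.LK.Unif
import Pool.Agent.TH296.KQ.Main

/-!
Summands of the polygons of a class closed under connected sums.
-/

set_option autoImplicit false

namespace Pool.Agent.T6.H44.LK

open Finset Filter Topology KN KN.KQ
open scoped Classical

/-- the class on closed polygons -/
def up (Q : List Dir → Prop) (l : List V) : Prop := ∃ w, SAP w ∧ Q w ∧ Same (vl w) l

theorem up_TC (Q : List Dir → Prop) : TC (up Q) := fun _ _ h ⟨w, h1, h2, h3⟩ => ⟨w, h1, h2, h3.trans h⟩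

theorem up_iff {Q : List Dir → Prop} (hQ : KClass Q) {w : List Dir} (hw : SAP w) :
    up Q (vl w) ↔ Q w := by
  constructor
  · rintro ⟨w', h1, h2, h3⟩
    exact hQ.same w' w h1 hw h3 h2
  · exact fun h => ⟨w, hw, h, Same.refl _⟩

theorem sums_up {Q : List Dir → Prop} (hQ : KClass Q) (hc : CSum Q) {k : List V} (hk : up Q k)
    {𝒬 : List V → Prop} (h𝒬 : ∀ l, 𝒬 l → up Q l) : ∀ (N : ℕ) (l : List V),
    SumsC 𝒬 (fun _ => k) N l → up Q l := by
  intro N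
  induction N with
  | zero => exact fun l hl => h𝒬 l hl
  | succ N ih =>
    rintro l ⟨l1, v, l2, hF, h2, h3, h4⟩
    have hJ : SAP (join l1 v l2) := S_glueSAP_proof l1 v l2 hF
    have h5 : Q (l1 ++ .zp :: l2) := (up_iff hQ hF.1).1 (ih _ h2)
    have h6 : Q (.zm :: v) := (up_iff hQ hF.2.2.1).1 (up_TC Q _ _ h3.symm hk)
    exact ⟨join l1 v l2, hJ, hc l1 v l2 hF h5 h6, h4.symm⟩

theorem a_mono {Q Q' : List Dir → Prop} (n : ℕ) (h : ∀ w, SAP w → Q w → Q' w) :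
    a Q n ≤ a Q' n := by
  unfold a
  apply Finset.card_le_card
  intro w hw
  rw [mem_K] at hw ⊢
  exact ⟨hw.1, hw.2.1, h w hw.2.1 hw.2.2⟩

theorem pq_mono {Q Q' : List Dir → Prop} (n : ℕ) (h : ∀ w, SAP w → Q w → Q' w) :
    pq Q n ≤ pq Q' n := by
  unfold pq
  refine div_le_div_of_nonneg_right ?_ (by positivity)
  exact_mod_cast a_mono n h

theorem pq_nonneg (Q : List Dir → Prop) (n : ℕ) : 0 ≤ pq Q n := by
  unfold pq
  positivity

/-- the ratio of the counts -/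
theorem ratio_pow {Q : List Dir → Prop} (hQ : KClass Q) (hc : CSum Q)
    (hne : ∃ w, SAP w ∧ Q w) : ∃ (G : ℝ) (J : ℕ), 1 ≤ G ∧ ∀ j : ℕ, J ≤ j → ∀ m : ℕ,
      pq Q (2 * j + 2 * m) ≤ G ^ m * pq Q (2 * j) := by
  have h1 := (class_sum Q hQ hne hc).2.eventually
    (gt_mem_nhds (show gr Q ^ 2 < gr Q ^ 2 + 1 by linarith))
  obtain ⟨J, hJ⟩ := eventually_atTop.1 (h1.and (class_pos Q hQ hne))
  refine ⟨gr Q ^ 2 + 1, J, by nlinarith [sq_nonneg (gr Q)], ?_⟩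
  intro j hj m
  induction m with
  | zero => simp
  | succ m ih =>
    have h2 := hJ (j + m) (by omega)
    obtain ⟨h3, h4⟩ := h2
    have h5 : 2 * (j + m) = 2 * j + 2 * m := by ring
    rw [h5] at h3 h4
    rw [div_lt_iff₀ h4] at h3
    have h6 : 2 * j + 2 * (m + 1) = 2 * j + 2 * m + 2 := by ring
    rw [h6, pow_succ]
    have h7 : (0 : ℝ) ≤ gr Q ^ 2 + 1 := by positivity
    nlinarith [mul_le_mul_of_nonneg_left ih h7]

/-- **few summands are rare** -/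
theorem few_summands {Q : List Dir → Prop} (hQ : KClass Q) (hc : CSum Q) {k : List V}
    (hk : ∃ w, SAP w ∧ Q w ∧ Same (vl w) k) : ∃ c C : ℝ, 0 < c ∧ 0 < C ∧
    ∀ j : ℕ, ∀ M : ℕ, (M : ℝ) ≤ c * (2 * j : ℝ) ^ (2 / 3 : ℝ) + 1 →
      pq (fun w => Q w ∧ ¬ Has k M (vl w)) (2 * j) ≤
        C * Real.exp (-(c * (2 * j : ℝ) ^ (2 / 3 : ℝ))) * pq Q (2 * j) := by
  have hne : ∃ w, SAP w ∧ Q w := by
    obtain ⟨w, h1, h2, -⟩ := hk
    exact ⟨w, h1, h2⟩
  obtain ⟨c₁, c₂, Kc, D, b, n₀, hc₁, hc₂, hK, hn₀, hmain⟩ :=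
    main_pq k (by obtain ⟨w, h1, -, h3⟩ := hk; exact ⟨w, h1, h3⟩)
  obtain ⟨G, J, hG, hratio⟩ := ratio_pow hQ hc hne
  have hK0 : 0 < Kc := by linarith
  have hG0 : 0 < G := by linarith
  -- the constants
  obtain ⟨K2, hK2⟩ : ∃ K2 : ℝ, K2 = Kc * G ^ b := ⟨_, rfl⟩
  have hK20 : 0 < K2 := by rw [hK2]; positivity
  obtain ⟨c₄, hc₄⟩ : ∃ c₄ : ℝ, c₄ = min c₂ (c₁ / (Real.exp 2 * K2)) := ⟨_, rfl⟩
  have hc₄0 : 0 < c₄ := by rw [hc₄]; exact lt_min hc₂ (by positivity)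
  have hc₄2 : c₄ ≤ c₂ := by rw [hc₄]; exact min_le_left _ _
  have hc₄1 : K2 * c₄ / c₁ ≤ Real.exp (-2) := by
    have h1 : c₄ ≤ c₁ / (Real.exp 2 * K2) := by rw [hc₄]; exact min_le_right _ _
    rw [div_le_iff₀ hc₁]
    calc K2 * c₄ ≤ K2 * (c₁ / (Real.exp 2 * K2)) := mul_le_mul_of_nonneg_left h1 hK20.le
      _ = Real.exp (-2) * c₁ := by
        rw [Real.exp_neg]
        field_simp
  have hlK : 0 ≤ Real.log Kc := Real.log_nonneg hK
  obtain ⟨c₅, hc₅⟩ : ∃ c₅ : ℝ, c₅ = c₄ / (Real.log Kc + 1) := ⟨_, rfl⟩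
  have hc₅0 : 0 < c₅ := by rw [hc₅]; positivity
  have hc₅4 : c₅ ≤ c₄ := by
    rw [hc₅]
    exact div_le_self hc₄0.le (by linarith)
  have hc₅K : c₅ * Real.log Kc ≤ c₄ := by
    rw [hc₅, div_mul_eq_mul_div, div_le_iff₀ (by positivity)]
    nlinarith
  -- large lengths
  have hlarge : ∀ᶠ n : ℕ in atTop, (c₅ * (n : ℝ) ^ (2 / 3 : ℝ) + 1) * D + 3 ≤ (n : ℝ) := by
    have h1 : Tendsto (fun n : ℕ => (n : ℝ) ^ (1 / 3 : ℝ)) atTop atTop :=
      (tendsto_rpow_atTop (by norm_num)).comp tendsto_natCast_atTop_atTop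
    filter_upwards [h1.eventually_ge_atTop (c₅ * D + D + 3), eventually_ge_atTop 1] with n h2 h3
    have hn1 : (1 : ℝ) ≤ n := by exact_mod_cast h3
    have hn0 : (0 : ℝ) < n := by linarith
    have h4 : (n : ℝ) = (n : ℝ) ^ (1 / 3 : ℝ) * (n : ℝ) ^ (2 / 3 : ℝ) := by
      rw [← Real.rpow_add hn0]
      norm_num
    have h5 : 1 ≤ (n : ℝ) ^ (2 / 3 : ℝ) := Real.one_le_rpow hn1 (by norm_num)
    have hD0 : (0 : ℝ) ≤ D := Nat.cast_nonneg D
    calc (c₅ * (n : ℝ) ^ (2 / 3 : ℝ) + 1) * D + 3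
        ≤ (c₅ * D + D + 3) * (n : ℝ) ^ (2 / 3 : ℝ) := by nlinarith
      _ ≤ (n : ℝ) ^ (1 / 3 : ℝ) * (n : ℝ) ^ (2 / 3 : ℝ) :=
          mul_le_mul_of_nonneg_right h2 (by positivity)
      _ = n := h4.symm
  obtain ⟨n₁, hn₁⟩ := eventually_atTop.1 hlarge
  obtain ⟨n₂, hn₂⟩ : ∃ n₂ : ℕ, n₂ = max (max n₀ n₁) (2 * J) := ⟨_, rfl⟩
  refine ⟨c₅, max (Kc * Real.exp 2) (Real.exp (c₅ * (n₂ : ℝ) ^ (2 / 3 : ℝ))), hc₅0,
    lt_max_of_lt_right (Real.exp_pos _), ?_⟩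
  intro j M hM
  obtain ⟨n, hn⟩ : ∃ n, n = 2 * j := ⟨_, rfl⟩
  have hnr : (2 * j : ℝ) = (n : ℝ) := by rw [hn]; push_cast; ring
  rw [hnr] at hM ⊢
  rw [← hn]
  have hpq0 := pq_nonneg Q n
  rcases Nat.lt_or_ge n n₂ with hsmall | hbig
  · -- small lengths
    have h1 : pq (fun w => Q w ∧ ¬ Has k M (vl w)) n ≤ pq Q n := pq_mono n fun w _ h => h.1
    refine h1.trans ?_
    have h2 : (n : ℝ) ^ (2 / 3 : ℝ) ≤ (n₂ : ℝ) ^ (2 / 3 : ℝ) := by
      refine Real.rpow_le_rpow (Nat.cast_nonneg n) ?_ (by norm_num)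
      exact_mod_cast hsmall.le
    have h3 : 1 ≤ max (Kc * Real.exp 2) (Real.exp (c₅ * (n₂ : ℝ) ^ (2 / 3 : ℝ))) *
        Real.exp (-(c₅ * (n : ℝ) ^ (2 / 3 : ℝ))) := by
      calc (1 : ℝ) = Real.exp (c₅ * (n : ℝ) ^ (2 / 3 : ℝ)) *
            Real.exp (-(c₅ * (n : ℝ) ^ (2 / 3 : ℝ))) := by
            rw [← Real.exp_add]
            simp
        _ ≤ max (Kc * Real.exp 2) (Real.exp (c₅ * (n₂ : ℝ) ^ (2 / 3 : ℝ))) *
            Real.exp (-(c₅ * (n : ℝ) ^ (2 / 3 : ℝ))) := by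
            refine mul_le_mul_of_nonneg_right (le_trans ?_ (le_max_right _ _)) (Real.exp_pos _).le
            exact Real.exp_le_exp.2 (mul_le_mul_of_nonneg_left h2 hc₅0.le)
    nlinarith
  · -- large lengths
    have hb0 : n₀ ≤ n := (le_max_left _ _).trans ((le_max_left _ _).trans (hn₂ ▸ hbig))
    have hb1 : n₁ ≤ n := (le_max_right _ _).trans ((le_max_left _ _).trans (hn₂ ▸ hbig))
    have hbJ : 2 * J ≤ n := (le_max_right _ _).trans (hn₂ ▸ hbig)
    have hJj : J ≤ j := by omega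
    have hnpos : (1 : ℝ) ≤ n := by
      have : 1 ≤ n := hn₀.trans hb0
      exact_mod_cast this
    obtain ⟨s, hs⟩ : ∃ s : ℝ, s = (n : ℝ) ^ (2 / 3 : ℝ) := ⟨_, rfl⟩
    have hs1 : 1 ≤ s := by rw [hs]; exact Real.one_le_rpow hnpos (by norm_num)
    have hs0 : 0 < s := by linarith
    rw [← hs] at hM ⊢
    obtain ⟨N, hN⟩ : ∃ N : ℕ, N = ⌊c₄ * s⌋₊ := ⟨_, rfl⟩
    have hN1 : (N : ℝ) ≤ c₄ * s := by rw [hN]; exact Nat.floor_le (by positivity)
    have hN2 : c₄ * s < N + 1 := by rw [hN]; exact Nat.lt_floor_add_one _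
    have hMD : M * D + 3 ≤ n := by
      have h1 := hn₁ n hb1
      rw [← hs] at h1
      have hD0 : (0 : ℝ) ≤ D := Nat.cast_nonneg D
      have h2 : (M : ℝ) * D + 3 ≤ n := by nlinarith [mul_le_mul_of_nonneg_right hM hD0]
      exact_mod_cast h2
    have h1 := hmain (fun l => up Q l ∧ ¬ Has k M l)
      (fun l l' h ⟨h1, h2⟩ => ⟨up_TC Q l l' h h1, fun h3 => h2 (Has_TC k M l' l h.symm h3)⟩)
      n hb0 N M (by rw [← hs]; exact hN1.trans (mul_le_mul_of_nonneg_right hc₄2 hs0.le)) hMD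
      (fun l hl => hl.2)
    have h2 : pq (fun w => Q w ∧ ¬ Has k M (vl w)) n ≤
        pq (fun w => up Q (vl w) ∧ ¬ Has k M (vl w)) n :=
      pq_mono n fun w hw h => ⟨(up_iff hQ hw).2 h.1, h.2⟩
    have h3 : pq (fun w => SumsC (fun l => up Q l ∧ ¬ Has k M l) (fun _ => k) N (vl w))
        (n + N * (2 * b)) ≤ pq Q (n + N * (2 * b)) := by
      refine pq_mono _ fun w hw h => ?_
      exact (up_iff hQ hw).1 (sums_up hQ hc hk (fun l hl => hl.1) N _ h)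
    have h4 : pq Q (n + N * (2 * b)) ≤ G ^ (N * b) * pq Q n := by
      have h5 := hratio j hJj (N * b)
      rw [← hn] at h5
      have h6 : n + N * (2 * b) = n + 2 * (N * b) := by ring
      rw [h6]
      exact h5
    obtain ⟨x, hx⟩ : ∃ x, x = pq (fun w => Q w ∧ ¬ Has k M (vl w)) n := ⟨_, rfl⟩
    obtain ⟨y, hy⟩ : ∃ y, y = pq Q n := ⟨_, rfl⟩
    rw [← hx] at h2 ⊢
    rw [← hy] at h4 hpq0 ⊢
    have h5 : (c₁ * s) ^ N * x ≤ Kc ^ (N + M) * N.factorial * (G ^ (N * b) * y) := by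
      rw [← hs] at h1
      calc (c₁ * s) ^ N * x ≤ (c₁ * s) ^ N *
            pq (fun w => up Q (vl w) ∧ ¬ Has k M (vl w)) n :=
            mul_le_mul_of_nonneg_left h2 (by positivity)
        _ ≤ _ := h1
        _ ≤ Kc ^ (N + M) * N.factorial * (G ^ (N * b) * y) :=
            mul_le_mul_of_nonneg_left (h3.trans h4) (by positivity)
    have h6 : (N.factorial : ℝ) ≤ (c₄ * s) ^ N := by
      have h7 : (N.factorial : ℝ) ≤ (N : ℝ) ^ N := by exact_mod_cast Nat.factorial_le_pow N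
      exact h7.trans (pow_le_pow_left₀ (Nat.cast_nonneg N) hN1 N)
    have h7 : x ≤ Kc ^ M * Real.exp (-2) ^ N * y := by
      have h8 : Kc ^ (N + M) * N.factorial * (G ^ (N * b) * y) ≤
          (c₁ * s) ^ N * (Kc ^ M * Real.exp (-2) ^ N * y) := by
        calc Kc ^ (N + M) * N.factorial * (G ^ (N * b) * y)
            ≤ Kc ^ (N + M) * (c₄ * s) ^ N * (G ^ (N * b) * y) := by gcongr
          _ = Kc ^ M * y * (s * (K2 * c₄)) ^ N := by
              rw [hK2, pow_add, mul_comm N b, pow_mul, mul_pow, mul_pow, mul_pow, mul_pow]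
              ring
          _ ≤ Kc ^ M * y * (s * (Real.exp (-2) * c₁)) ^ N := by
              refine mul_le_mul_of_nonneg_left (pow_le_pow_left₀ (by positivity)
                (mul_le_mul_of_nonneg_left ?_ hs0.le) N) (by positivity)
              rwa [div_le_iff₀ hc₁] at hc₄1
          _ = (c₁ * s) ^ N * (Kc ^ M * Real.exp (-2) ^ N * y) := by
              rw [mul_pow, mul_pow, mul_pow]
              ring
      exact le_of_mul_le_mul_left (h5.trans h8) (by positivity)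
    have h8 : Kc ^ M ≤ Kc * Real.exp (c₄ * s) := by
      have h9 : Kc ^ M = Real.exp (M * Real.log Kc) := by
        rw [← Real.exp_log hK0, ← Real.exp_nat_mul, Real.log_exp]
      have h10 : Kc * Real.exp (c₄ * s) = Real.exp (Real.log Kc + c₄ * s) := by
        rw [Real.exp_add, Real.exp_log hK0]
      rw [h9, h10, Real.exp_le_exp]
      have h11 := mul_le_mul_of_nonneg_right hM hlK
      nlinarith [mul_le_mul_of_nonneg_right hc₅K hs0.le]
    have h9 : Real.exp (-2) ^ N ≤ Real.exp 2 * Real.exp (-(2 * (c₄ * s))) := by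
      rw [← Real.exp_nat_mul, ← Real.exp_add, Real.exp_le_exp]
      linarith
    refine h7.trans ?_
    refine mul_le_mul_of_nonneg_right ?_ hpq0
    calc Kc ^ M * Real.exp (-2) ^ N
        ≤ (Kc * Real.exp (c₄ * s)) * (Real.exp 2 * Real.exp (-(2 * (c₄ * s)))) :=
          mul_le_mul h8 h9 (by positivity) (by positivity)
      _ = Kc * Real.exp 2 * Real.exp (-(c₄ * s)) := by
          have h10 : Real.exp (c₄ * s) * Real.exp (-(2 * (c₄ * s))) = Real.exp (-(c₄ * s)) := by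
            rw [← Real.exp_add]
            congr 1
            ring
          calc (Kc * Real.exp (c₄ * s)) * (Real.exp 2 * Real.exp (-(2 * (c₄ * s))))
              = Kc * Real.exp 2 * (Real.exp (c₄ * s) * Real.exp (-(2 * (c₄ * s)))) := by ring
            _ = _ := by rw [h10]
      _ ≤ max (Kc * Real.exp 2) (Real.exp (c₅ * (n₂ : ℝ) ^ (2 / 3 : ℝ))) *
            Real.exp (-(c₅ * s)) := by
          refine mul_le_mul (le_max_left _ _) (Real.exp_le_exp.2 ?_) (Real.exp_pos _).le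
            (le_trans (by positivity) (le_max_left _ _))
          have := mul_le_mul_of_nonneg_right hc₅4 hs0.le
          linarith

end Pool.Agent.T6.H44.LK
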