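import Pool.Agent.TH945.KQ.YALL

/-!
Words with many blocks of the same knot: the number of these words, uniformly in the number of blocks
and in the class.
-/

set_option autoImplicit false

namespace Pool.Agent.T6.H44.LK

open Finset Filter Topology KN KN.KQ KN.KQ.K3YCNT
open scoped Classical

/-- one more block: uniform version of `Y_cnt_proof` -/
theorem cnt_unif (T L B R : ℕ) (v : ℕ → List Dir) (hv : SmB L B v) (hLL : LLat T L R)
    (hR : 1 ≤ R) : ∃ c₁ c₂ : ℝ, ∃ n₀ : ℕ, 0 < c₁ ∧ 0 < c₂ ∧ 1 ≤ n₀ ∧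
    ∀ 𝒬 : List V → Prop, TC 𝒬 → ∀ n : ℕ, n₀ ≤ n → ∀ N : ℕ,
      (N : ℝ) ≤ c₂ * (n : ℝ) ^ (2 / 3 : ℝ) →
      c₁ * (n : ℝ) ^ (2 / 3 : ℝ) * (VZ 𝒬 T L v N n).card ≤ (VZ 𝒬 T L v (N + 1) n).card := by
  obtain ⟨c, hc, hev⟩ := d_many R hR
  obtain ⟨n₀, hn₀⟩ := eventually_atTop.1 hev
  obtain ⟨r, hr⟩ : ∃ r, r = raZ T L B := ⟨_, rfl⟩
  obtain ⟨q, hq⟩ : ∃ q : ℕ, q = (2 * r + 1) ^ 3 := ⟨_, rfl⟩
  have hq0 : (0 : ℝ) < q := by
    rw [hq]
    positivity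
  obtain ⟨Q, hQ⟩ : ∃ Q : ℕ, Q = (6 * (6 * (3 * 13 ^ 3))) := ⟨_, rfl⟩
  have hQ0 : (0 : ℝ) < Q := by
    rw [hQ]
    positivity
  refine ⟨c / (2 * Q), c / (2 * q), max n₀ 1, by positivity, by positivity, le_max_right _ _, ?_⟩
  intro 𝒬 hTC n hn N hN
  have hn' : n₀ ≤ n := (le_max_left _ _).trans hn
  obtain ⟨D, hD⟩ : ∃ D : ℕ, D = ((List.range N).map (fun i => (blk T (v i)).length - 1)).sum :=
    ⟨_, rfl⟩
  have hn1 := hn₀ (n + D) (by omega)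
  have hM0 : ((N * q : ℕ) : ℝ) ≤ c / 2 * (n : ℝ) ^ (2 / 3 : ℝ) := by
    push_cast
    have h1 := mul_le_mul_of_nonneg_right hN hq0.le
    refine h1.trans (le_of_eq ?_)
    field_simp
  have hC : ∀ W : List Sz, ∃ C : Finset Z3, W ∈ VZ 𝒬 T L v N n →
      (c / 2 * (n : ℝ) ^ (2 / 3 : ℝ) ≤ C.card ∧ ∀ x ∈ C, ¬ near 6 x 0 ∧
        (∃ N, Cont R {p | p ∈ path (EZ T v W)} x N) ∧ faZ T v r W x) := by
    intro W
    by_cases hW : W ∈ VZ 𝒬 T L v N n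
    swap
    · exact ⟨∅, fun h => absurd h hW⟩
    rw [q_mem] at hW
    obtain ⟨hW1, hW2, hW3⟩ := hW
    have hlen : (EZ T v W).length = n + D := by
      rw [(e_bas T L B v hv W).2.2.1, hW1, (hW2.map _).sum_eq, hD]
    obtain ⟨C, hC1, hC2⟩ := hn1 (EZ T v W) hW3.ext hlen
    refine ⟨C.filter (fun x => faZ T v r W x), fun _ => ⟨?_, ?_⟩⟩
    · have hbad : (C.filter (fun x => ¬ faZ T v r W x)).card ≤ N * q := by
        have hsub : C.filter (fun x => ¬ faZ T v r W x) ⊆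
            (bps T v W).toFinset.biUnion (fun q => box r q) := by
          intro x hx
          rw [mem_filter] at hx
          obtain ⟨-, hx⟩ := hx
          unfold faZ at hx
          push Not at hx
          obtain ⟨A, B', i, d, f, hAB, hx⟩ := hx
          rw [mem_biUnion]
          refine ⟨pos (EZ T v B'), ?_, mem_box.2 hx⟩
          rw [List.mem_toFinset, hAB]
          exact mem_bps T v A B' i d f
        refine (card_le_card hsub).trans ?_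
        refine (card_biUnion_le_card_mul _ _ ((2 * r + 1) ^ 3) (fun q _ => (card_box r q).le)).trans
          ?_
        rw [hq]
        apply Nat.mul_le_mul_right
        refine (List.toFinset_card_le _).trans ?_
        rw [bps_length, hW2.length_eq, List.length_range]
      have hsum := card_filter_add_card_filter_not (s := C) (fun x => faZ T v r W x)
      have hn3 : (n : ℝ) ^ (2 / 3 : ℝ) ≤ ((n + D : ℕ) : ℝ) ^ (2 / 3 : ℝ) := by
        apply Real.rpow_le_rpow (by positivity) _ (by norm_num)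
        exact_mod_cast Nat.le_add_right _ _
      have hn4 : c * (n : ℝ) ^ (2 / 3 : ℝ) ≤ C.card :=
        (mul_le_mul_of_nonneg_left hn3 hc.le).trans hC1
      have hb' : ((C.filter (fun x => ¬ faZ T v r W x)).card : ℝ) ≤ ((N * q : ℕ) : ℝ) := by
        exact_mod_cast hbad
      have hs' : ((C.filter (fun x => faZ T v r W x)).card : ℝ) +
          ((C.filter (fun x => ¬ faZ T v r W x)).card : ℝ) = C.card := by
        exact_mod_cast hsum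
      linarith
    · intro x hx
      rw [mem_filter] at hx
      exact ⟨(hC2 x hx.1).1, (hC2 x hx.1).2, hx.2⟩
  choose C hC using hC
  have key := count q_mem T_rtc_proof T L v N n C (by
    intro W hW x hx
    obtain ⟨-, h3⟩ := hC W hW
    obtain ⟨h4, ⟨N', h5⟩, h6⟩ := h3 x hx
    rw [hr] at h6
    exact q_con hTC T L B R v hv hLL W ((q_mem _ _ _ _ _ _).1 hW).2.2 x N' h5 h4 h6 N)
  have hlow : c / 2 * (n : ℝ) ^ (2 / 3 : ℝ) * (VZ 𝒬 T L v N n).card ≤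
      ((∑ W ∈ VZ 𝒬 T L v N n, (C W).card : ℕ) : ℝ) := by
    push_cast
    rw [mul_comm, ← nsmul_eq_mul]
    exact Finset.card_nsmul_le_sum _ _ _ (fun W hW => (hC W hW).1)
  have key' : ((∑ W ∈ VZ 𝒬 T L v N n, (C W).card : ℕ) : ℝ) ≤ (VZ 𝒬 T L v (N + 1) n).card * Q := by
    rw [hQ]
    exact_mod_cast key
  have hfin := hlow.trans key'
  rw [div_mul_eq_mul_div, div_mul_eq_mul_div, div_le_iff₀ (by positivity)]
  calc c * (n : ℝ) ^ (2 / 3 : ℝ) * (VZ 𝒬 T L v N n).card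
      = 2 * (c / 2 * (n : ℝ) ^ (2 / 3 : ℝ) * (VZ 𝒬 T L v N n).card) := by ring
    _ ≤ 2 * ((VZ 𝒬 T L v (N + 1) n).card * Q) := by linarith
    _ = (VZ 𝒬 T L v (N + 1) n).card * (2 * Q) := by ring

/-- the number of words with `N` blocks -/
theorem blocks (T L B R : ℕ) (v : ℕ → List Dir) (hv : SmB L B v) (hLL : LLat T L R)
    (hR : 1 ≤ R) : ∃ c₁ c₂ : ℝ, ∃ n₀ : ℕ, 0 < c₁ ∧ 0 < c₂ ∧ 1 ≤ n₀ ∧
    ∀ 𝒬 : List V → Prop, TC 𝒬 → ∀ n : ℕ, n₀ ≤ n → ∀ N : ℕ,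
      (N : ℝ) ≤ c₂ * (n : ℝ) ^ (2 / 3 : ℝ) →
      (c₁ * (n : ℝ) ^ (2 / 3 : ℝ)) ^ N * a (fun w => 𝒬 (vl w)) n ≤ (VZ 𝒬 T L v N n).card := by
  obtain ⟨c₁, c₂, n₀, h1, h2, h3, h⟩ := cnt_unif T L B R v hv hLL hR
  refine ⟨c₁, c₂, n₀, h1, h2, h3, fun 𝒬 hQ n hn N => ?_⟩
  induction N with
  | zero =>
    intro _
    rw [q_zero T L v n]
    simp
  | succ N ih =>
    intro hN
    have hN' : (N : ℝ) ≤ c₂ * (n : ℝ) ^ (2 / 3 : ℝ) := by
      push_cast at hN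
      linarith
    have h4 := h 𝒬 hQ n hn N hN'
    have h5 := ih hN'
    refine le_trans ?_ h4
    rw [pow_succ]
    calc (c₁ * (n : ℝ) ^ (2 / 3 : ℝ)) ^ N * (c₁ * (n : ℝ) ^ (2 / 3 : ℝ)) *
          (a (fun w => 𝒬 (vl w)) n : ℝ)
        = c₁ * (n : ℝ) ^ (2 / 3 : ℝ) * ((c₁ * (n : ℝ) ^ (2 / 3 : ℝ)) ^ N *
          (a (fun w => 𝒬 (vl w)) n : ℝ)) := by ring
      _ ≤ c₁ * (n : ℝ) ^ (2 / 3 : ℝ) * (VZ 𝒬 T L v N n).card :=
          mul_le_mul_of_nonneg_left h5 (by positivity)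

end Pool.Agent.T6.H44.LK
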