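import Pool.Agent.T6.H44.LK.Cls

/-!
Consequences for classes with few summands, for single knot types, and for growth rates.
-/

set_option autoImplicit false

namespace Pool.Agent.T6.H44.LK

open Finset Filter Topology KN KN.KQ
open scoped Classical

theorem gr_pos {Q : List Dir → Prop} (hQ : KClass Q) (hne : ∃ w, SAP w ∧ Q w) : 0 < gr Q := by
  have := (gr_bounds Q hQ hne).1
  linarith

/-- a class with a bounded number of summands in a closed class -/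
theorem sub_class {Q Q₁ : List Dir → Prop} (hQ : KClass Q) (hc : CSum Q) {k : List V}
    (hk : ∃ w, SAP w ∧ Q w ∧ Same (vl w) k) (M : ℕ)
    (h₁ : ∀ w, SAP w → Q₁ w → Q w ∧ ¬ Has k M (vl w)) : ∃ c C : ℝ, 0 < c ∧ 0 < C ∧
    ∀ j : ℕ, 1 ≤ j →
      pq Q₁ (2 * j) ≤ C * Real.exp (-(c * (2 * j : ℝ) ^ (2 / 3 : ℝ))) * pq Q (2 * j) ∧
      pq Q₁ (2 * j) ≤ C * Real.exp (-(c * (2 * j : ℝ) ^ (2 / 3 : ℝ))) * gr Q ^ (2 * j) := by
  have hne : ∃ w, SAP w ∧ Q w := by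
    obtain ⟨w, h1, h2, -⟩ := hk
    exact ⟨w, h1, h2⟩
  obtain ⟨c, C, hc0, hC0, h⟩ := few_summands hQ hc hk
  obtain ⟨⟨C3, hC3⟩, -⟩ := class_all hQ hc hne
  have hg := gr_pos hQ hne
  obtain ⟨C1, hC1⟩ : ∃ C1 : ℝ, C1 = max C (Real.exp M) := ⟨_, rfl⟩
  have hC10 : 0 < C1 := by rw [hC1]; exact lt_max_of_lt_left hC0
  have hmain : ∀ j : ℕ, pq Q₁ (2 * j) ≤
      C1 * Real.exp (-(c * (2 * j : ℝ) ^ (2 / 3 : ℝ))) * pq Q (2 * j) := by
    intro j
    obtain ⟨s, hs⟩ : ∃ s : ℝ, s = (2 * j : ℝ) ^ (2 / 3 : ℝ) := ⟨_, rfl⟩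
    have hs0 : 0 ≤ s := by rw [hs]; positivity
    have hp := pq_nonneg Q (2 * j)
    rcases le_or_gt (M : ℝ) (c * s + 1) with h1 | h1
    · have h2 := h j M (by rw [← hs]; exact h1)
      refine (pq_mono (2 * j) h₁).trans (h2.trans ?_)
      refine mul_le_mul_of_nonneg_right (mul_le_mul_of_nonneg_right ?_ (Real.exp_pos _).le) hp
      rw [hC1]
      exact le_max_left _ _
    · rw [← hs]
      have h2 : pq Q₁ (2 * j) ≤ pq Q (2 * j) := pq_mono (2 * j) fun w hw hw1 => (h₁ w hw hw1).1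
      refine h2.trans ?_
      have h3 : 1 ≤ C1 * Real.exp (-(c * s)) := by
        calc (1 : ℝ) = Real.exp (c * s) * Real.exp (-(c * s)) := by
              rw [← Real.exp_add]
              simp
          _ ≤ C1 * Real.exp (-(c * s)) := by
              refine mul_le_mul_of_nonneg_right ?_ (Real.exp_pos _).le
              rw [hC1]
              refine le_trans (Real.exp_le_exp.2 (by linarith)) (le_max_right _ _)
      nlinarith
  refine ⟨c, C1 * max C3 1, hc0, by positivity, fun j hj => ?_⟩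
  have h1 := hmain j
  have hj1 : (1 : ℝ) ≤ j := by exact_mod_cast hj
  have hE : 0 < C1 * Real.exp (-(c * (2 * j : ℝ) ^ (2 / 3 : ℝ))) := by positivity
  have hmax1 : 1 ≤ max C3 1 := le_max_right _ _
  refine ⟨?_, ?_⟩
  · refine h1.trans ?_
    refine mul_le_mul_of_nonneg_right ?_ (pq_nonneg Q (2 * j))
    nlinarith
  · refine h1.trans ?_
    have h2 := hC3 (2 * j) (by omega)
    have h3 : C3 * ((2 * j : ℕ) : ℝ) ^ (-(2 / 3) : ℝ) * gr Q ^ (2 * j) ≤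
        max C3 1 * gr Q ^ (2 * j) := by
      refine mul_le_mul_of_nonneg_right ?_ (by positivity)
      have h4 : ((2 * j : ℕ) : ℝ) ^ (-(2 / 3) : ℝ) ≤ 1 := by
        refine Real.rpow_le_one_of_one_le_of_nonpos ?_ (by norm_num)
        push_cast
        linarith
      have h5 : 0 ≤ ((2 * j : ℕ) : ℝ) ^ (-(2 / 3) : ℝ) := by positivity
      calc C3 * ((2 * j : ℕ) : ℝ) ^ (-(2 / 3) : ℝ)
          ≤ max C3 1 * ((2 * j : ℕ) : ℝ) ^ (-(2 / 3) : ℝ) :=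
            mul_le_mul_of_nonneg_right (le_max_left _ _) h5
        _ ≤ max C3 1 * 1 := mul_le_mul_of_nonneg_left h4 (by linarith)
        _ = max C3 1 := mul_one _
    calc C1 * Real.exp (-(c * (2 * j : ℝ) ^ (2 / 3 : ℝ))) * pq Q (2 * j)
        ≤ C1 * Real.exp (-(c * (2 * j : ℝ) ^ (2 / 3 : ℝ))) * (max C3 1 * gr Q ^ (2 * j)) :=
          mul_le_mul_of_nonneg_left (h2.trans h3) hE.le
      _ = C1 * max C3 1 * Real.exp (-(c * (2 * j : ℝ) ^ (2 / 3 : ℝ))) * gr Q ^ (2 * j) := by ring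

/-- comparison of growth rates -/
theorem gr_lt {p : ℕ → ℝ} {g g' : ℝ} (hg : 0 < g) (hg' : 0 < g') {c C : ℝ} (hc : 0 < c)
    (hC : 0 < C) (h : ∀ j : ℕ, 1 ≤ j → p j ≤ C * Real.exp (-(c * (2 * j : ℝ) ^ (2 / 3 : ℝ))) *
      g' ^ (2 * j))
    (hf : ∀ δ : ℝ, 0 < δ → ∃ᶠ j : ℕ in atTop,
      Real.exp (-(δ * (2 * j : ℝ) ^ (2 / 3 : ℝ))) * g ^ (2 * j) ≤ p j) : g < g' := by
  by_contra hcon
  rw [not_lt] at hcon
  have h1 : Tendsto (fun j : ℕ => c / 2 * (2 * j : ℝ) ^ (2 / 3 : ℝ)) atTop atTop := by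
    refine Tendsto.const_mul_atTop (by positivity) ?_
    refine (tendsto_rpow_atTop (by norm_num)).comp ?_
    exact Tendsto.const_mul_atTop (by norm_num) tendsto_natCast_atTop_atTop
  have h2 := (hf (c / 2) (by positivity)).and_eventually
    ((h1.eventually_gt_atTop (Real.log C)).and (eventually_ge_atTop 1))
  obtain ⟨j, h3, h4, h5⟩ := h2.exists
  obtain ⟨s, hs⟩ : ∃ s : ℝ, s = (2 * j : ℝ) ^ (2 / 3 : ℝ) := ⟨_, rfl⟩
  have h6 := h j h5
  rw [← hs] at h3 h4 h6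
  have h7 : g' ^ (2 * j) ≤ g ^ (2 * j) := pow_le_pow_left₀ hg'.le hcon _
  have h8 : Real.exp (-(c / 2 * s)) * g ^ (2 * j) ≤ C * Real.exp (-(c * s)) * g ^ (2 * j) :=
    h3.trans (h6.trans (mul_le_mul_of_nonneg_left h7 (by positivity)))
  have h9 : Real.exp (-(c / 2 * s)) ≤ C * Real.exp (-(c * s)) :=
    le_of_mul_le_mul_right h8 (by positivity)
  have h10 : C * Real.exp (-(c * s)) < Real.exp (-(c / 2 * s)) := by
    have h11 : C < Real.exp (c / 2 * s) := by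
      rw [← Real.exp_log hC]
      exact Real.exp_lt_exp.2 h4
    calc C * Real.exp (-(c * s)) < Real.exp (c / 2 * s) * Real.exp (-(c * s)) :=
          mul_lt_mul_of_pos_right h11 (Real.exp_pos _)
      _ = Real.exp (-(c / 2 * s)) := by
          rw [← Real.exp_add]
          congr 1
          ring
  linarith

/-- the asymptotic form gives lower bounds for the counts -/
theorem form_lower {p : ℕ → ℝ} {g A α : ℝ} (hg : 0 < g) (hA : 0 < A)
    (h : Tendsto (fun j : ℕ => p j / ((2 * j : ℝ) ^ (α - 3) * g ^ (2 * j))) atTop (𝓝 A))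
    (δ : ℝ) (hδ : 0 < δ) : ∃ᶠ j : ℕ in atTop,
      Real.exp (-(δ * (2 * j : ℝ) ^ (2 / 3 : ℝ))) * g ^ (2 * j) ≤ p j := by
  apply Eventually.frequently
  have h1 : Tendsto (fun j : ℕ => (2 * j : ℝ) ^ (2 / 3 : ℝ)) atTop atTop := by
    refine (tendsto_rpow_atTop (by norm_num)).comp ?_
    exact Tendsto.const_mul_atTop (by norm_num) tendsto_natCast_atTop_atTop
  have h2 : Tendsto (fun j : ℕ => ((2 * j : ℝ) ^ (2 / 3 : ℝ)) ^ ((3 - α) * (3 / 2)) *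
      Real.exp (-(δ * (2 * j : ℝ) ^ (2 / 3 : ℝ)))) atTop (𝓝 0) := by
    have h3 := tendsto_rpow_mul_exp_neg_mul_atTop_nhds_zero ((3 - α) * (3 / 2)) δ hδ
    have h4 := h3.comp h1
    refine h4.congr fun j => ?_
    simp only [Function.comp]
    rw [neg_mul]
  filter_upwards [h.eventually (lt_mem_nhds (show A / 2 < A by linarith)),
    h2.eventually (gt_mem_nhds (show (0 : ℝ) < A / 2 by positivity)),
    eventually_ge_atTop 1] with j h3 h4 h5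
  have hj : (0 : ℝ) < 2 * j := by
    have : (1 : ℝ) ≤ j := by exact_mod_cast h5
    linarith
  have h6 : ((2 * j : ℝ) ^ (2 / 3 : ℝ)) ^ ((3 - α) * (3 / 2)) = (2 * j : ℝ) ^ (3 - α) := by
    rw [← Real.rpow_mul hj.le]
    congr 1
    ring
  rw [h6] at h4
  have h7 : 0 < (2 * j : ℝ) ^ (α - 3) := Real.rpow_pos_of_pos hj _
  have h8 : (2 * j : ℝ) ^ (α - 3) * (2 * j : ℝ) ^ (3 - α) = 1 := by
    rw [← Real.rpow_add hj]
    simp
  rw [lt_div_iff₀ (by positivity)] at h3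
  refine le_trans ?_ h3.le
  have h9 : Real.exp (-(δ * (2 * j : ℝ) ^ (2 / 3 : ℝ))) ≤ A / 2 * (2 * j : ℝ) ^ (α - 3) := by
    calc Real.exp (-(δ * (2 * j : ℝ) ^ (2 / 3 : ℝ)))
        = (2 * j : ℝ) ^ (α - 3) * ((2 * j : ℝ) ^ (3 - α) *
          Real.exp (-(δ * (2 * j : ℝ) ^ (2 / 3 : ℝ)))) := by rw [← mul_assoc, h8, one_mul]
      _ ≤ (2 * j : ℝ) ^ (α - 3) * (A / 2) := mul_le_mul_of_nonneg_left h4.le h7.le
      _ = _ := mul_comm _ _
  calc Real.exp (-(δ * (2 * j : ℝ) ^ (2 / 3 : ℝ))) * g ^ (2 * j)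
      ≤ A / 2 * (2 * j : ℝ) ^ (α - 3) * g ^ (2 * j) :=
        mul_le_mul_of_nonneg_right h9 (by positivity)
    _ = A / 2 * ((2 * j : ℝ) ^ (α - 3) * g ^ (2 * j)) := by ring

/-- a knot type has a bounded number of summands -/
theorem noHas {w₀ : List Dir} (hw₀ : SAP w₀) {k : List V} (hk : FNAG k) :
    ∃ M : ℕ, ∀ w, KT (vl w₀) w → ¬ Has k M (vl w) := by
  obtain ⟨M1, h1⟩ := noM_finite hw₀ (fun _ => k) 1 (fun _ _ => hk)
  obtain ⟨hb, hbs⟩ := back_same hw₀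
  obtain ⟨M2, h2⟩ := noM_finite hb (fun _ => k) 1 (fun _ _ => hk)
  refine ⟨max M1 M2, ?_⟩
  rintro w (h | h) hH
  · exact h1 (fun _ => 0) (fun _ _ => one_pos) _ h (Has_le (le_max_left M1 M2) hH)
  · exact h2 (fun _ => 0) (fun _ _ => one_pos) _ (h.trans hbs.symm) (Has_le (le_max_right M1 M2) hH)

/-- many summands, uniformly -/
theorem many_summands {w₀ : List Dir} (hw₀ : SAP w₀) {k : List V}
    (hk : ∃ w, SAP w ∧ Same (vl w) k) (hF : FNAG k) : ∃ (c C : ℝ) (b : ℕ), 0 < c ∧ 0 < C ∧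
    ∀ᶠ j : ℕ in atTop, ∀ N : ℕ, 1 ≤ N → (N : ℝ) ≤ c * (2 * j : ℝ) ^ (2 / 3 : ℝ) →
      ∀ l : List V, SumsC (Ty (vl w₀)) (fun _ => k) N l →
      (c * (2 * j : ℝ) ^ (2 / 3 : ℝ) / N) ^ N * pq (KT (vl w₀)) (2 * j) ≤
        C * pq (KT l) (2 * (j + b * N)) := by
  obtain ⟨M, hM⟩ := noHas hw₀ hF
  obtain ⟨c₁, c₂, Kc, D, b, n₀, hc₁, hc₂, hK, hn₀, hmain⟩ := main_pq k hk
  have hK0 : 0 < Kc := by linarith
  refine ⟨min c₂ (c₁ / Kc), 2 * Kc ^ M, b, lt_min hc₂ (by positivity), by positivity, ?_⟩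
  filter_upwards [eventually_ge_atTop (n₀ + M * D + 3)] with j hj N hN1 hN l hl
  obtain ⟨s, hs⟩ : ∃ s : ℝ, s = (2 * j : ℝ) ^ (2 / 3 : ℝ) := ⟨_, rfl⟩
  have hj1 : (0 : ℝ) < j := by exact_mod_cast (by omega : 0 < j)
  have hs0 : 0 < s := by rw [hs]; positivity
  have hs' : ((2 * j : ℕ) : ℝ) ^ (2 / 3 : ℝ) = s := by rw [hs]; push_cast; rfl
  rw [← hs] at hN ⊢
  have hN0 : (0 : ℝ) < N := by exact_mod_cast hN1
  have h1 := hmain (Ty (vl w₀)) (Ty_TC _) (2 * j) (by omega) N M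
    (by rw [hs']; exact hN.trans (mul_le_mul_of_nonneg_right (min_le_left _ _) hs0.le)) (by omega)
    (fun l hl h => by
      obtain ⟨M', h2⟩ : ∃ M', M' = M := ⟨_, rfl⟩
      exact hM w₀ (Or.inl (Same.refl _)) (Has_TC k M _ _ hl h))
  rw [hs'] at h1
  have h2 : pq (KT (vl w₀)) (2 * j) ≤ 2 * pq (fun w => Ty (vl w₀) (vl w)) (2 * j) := by
    unfold pq
    have h3 : (a (KT (vl w₀)) (2 * j) : ℝ) ≤ 2 * a (fun w => Ty (vl w₀) (vl w)) (2 * j) := by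
      exact_mod_cast a_le_two (vl w₀) (2 * j)
    rw [← mul_div_assoc]
    exact div_le_div_of_nonneg_right h3 (by positivity)
  have h3 : pq (fun w => SumsC (Ty (vl w₀)) (fun _ => k) N (vl w)) (2 * j + N * (2 * b)) ≤
      pq (KT l) (2 * (j + b * N)) := by
    rw [show 2 * (j + b * N) = 2 * j + N * (2 * b) by ring]
    exact pq_mono _ fun w _ h => Or.inl (sums_unique _ _ N _ _ h hl)
  have h4 : (N.factorial : ℝ) ≤ (N : ℝ) ^ N := by exact_mod_cast Nat.factorial_le_pow N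
  obtain ⟨x, hx⟩ : ∃ x, x = pq (fun w => Ty (vl w₀) (vl w)) (2 * j) := ⟨_, rfl⟩
  obtain ⟨y, hy⟩ : ∃ y, y = pq (KT l) (2 * (j + b * N)) := ⟨_, rfl⟩
  have hx0 : 0 ≤ x := by rw [hx]; exact pq_nonneg _ _
  have hy0 : 0 ≤ y := by rw [hy]; exact pq_nonneg _ _
  rw [← hx] at h1 h2
  rw [← hy] at h3 ⊢
  have h5 : (c₁ * s) ^ N * x ≤ Kc ^ (N + M) * (N : ℝ) ^ N * y := by
    exact h1.trans (mul_le_mul (mul_le_mul_of_nonneg_left h4 (by positivity)) h3 (pq_nonneg _ _)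
      (by positivity))
  have h6 : (min c₂ (c₁ / Kc) * s / N) ^ N ≤ (c₁ * s) ^ N / (Kc ^ N * (N : ℝ) ^ N) := by
    rw [← mul_pow, ← div_pow]
    refine pow_le_pow_left₀ (by positivity) ?_ N
    calc min c₂ (c₁ / Kc) * s / N ≤ (c₁ / Kc) * s / N := by
          gcongr
          exact min_le_right _ _
      _ = c₁ * s / (Kc * N) := by
          field_simp
  calc (min c₂ (c₁ / Kc) * s / N) ^ N * pq (KT (vl w₀)) (2 * j)
      ≤ (c₁ * s) ^ N / (Kc ^ N * (N : ℝ) ^ N) * (2 * x) :=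
        mul_le_mul h6 h2 (pq_nonneg _ _) (by positivity)
    _ = 2 * ((c₁ * s) ^ N * x) / (Kc ^ N * (N : ℝ) ^ N) := by ring
    _ ≤ 2 * (Kc ^ (N + M) * (N : ℝ) ^ N * y) / (Kc ^ N * (N : ℝ) ^ N) := by
        gcongr
    _ = 2 * Kc ^ M * y := by
        rw [pow_add]
        field_simp

end Pool.Agent.T6.H44.LK
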