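import Pool.Agent.T6.H44.LK.Cnt

/-!
Words with many blocks of the same knot: the number of the words which give the same polygon.
-/

set_option autoImplicit false

namespace Pool.Agent.T6.H44.LK

open Finset Filter Topology KN KN.KQ KN.K3YMUL
open scoped Classical

/-- directions of the blocks -/
def drs (W : List Sz) : List (Dir × Dir) := W.filterMap (fun s => match s with
  | .lt _ => none
  | .bl _ d f => some (d, f))

theorem drs_lt (e : Dir) (W : List Sz) : drs (.lt e :: W) = drs W := rfl

theorem drs_bl (i : ℕ) (d f : Dir) (W : List Sz) : drs (.bl i d f :: W) = (d, f) :: drs W := rfl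

theorem lab_lt (e : Dir) (W : List Sz) : lab (.lt e :: W) = lab W := rfl

theorem lab_bl (i : ℕ) (d f : Dir) (W : List Sz) : lab (.bl i d f :: W) = i :: lab W := rfl

theorem drs_length : ∀ W : List Sz, (drs W).length = (lab W).length := by
  intro W
  induction W with
  | nil => rfl
  | cons s W ih =>
    cases s with
    | lt e => rw [drs_lt, lab_lt, ih]
    | bl i d f => rw [drs_bl, lab_bl, List.length_cons, List.length_cons, ih]

/-- positions -/
noncomputable def Ps (T : ℕ) (v : ℕ → List Dir) (o : ℕ) (W : List Sz) : Finset ℕ :=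
  (Sp T v o W).image Prod.fst

theorem Ps_lt (T : ℕ) (v : ℕ → List Dir) (o : ℕ) (e : Dir) (W : List Sz) :
    Ps T v o (.lt e :: W) = Ps T v (o + 1) W := rfl

theorem Ps_bl (T : ℕ) (v : ℕ → List Dir) (o i : ℕ) (d f : Dir) (W : List Sz) :
    Ps T v o (.bl i d f :: W) = insert o (Ps T v (o + (blk T (v i)).length) W) := by
  unfold Ps
  rw [show Sp T v o (.bl i d f :: W) =
    insert (o, i, d, f) (Sp T v (o + (blk T (v i)).length) W) from rfl, Finset.image_insert]

theorem Ps_ge (T : ℕ) (v : ℕ → List Dir) (W : List Sz) (o m : ℕ) (h : m ∈ Ps T v o W) :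
    o ≤ m := by
  unfold Ps at h
  rw [Finset.mem_image] at h
  obtain ⟨q, hq, rfl⟩ := h
  exact Sp_ge T v W o q hq

/-- a word is determined by the polygon, the positions, the labels and the directions -/
theorem inj2 (T : ℕ) (v : ℕ → List Dir) : ∀ (W W' : List Sz) (o : ℕ), EZ T v W = EZ T v W' →
    Ps T v o W = Ps T v o W' → lab W = lab W' → drs W = drs W' → W = W' := by
  intro W
  induction W with
  | nil =>
    intro W' o h1 _ _ _
    cases W' with
    | nil => rfl
    | cons s W' =>
      exfalso
      rw [EZ_nil, EZ_cons] at h1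
      have h3 := congrArg List.length h1
      rw [List.length_append] at h3
      cases s with
      | lt f => simp only [szw, List.length_cons, List.length_nil] at h3; omega
      | bl i d f =>
        have hb := blk_pos T (v i)
        simp only [szw, List.length_map, List.length_nil] at h3
        omega
  | cons s W ih =>
    intro W' o h1 h2 hl hd
    cases W' with
    | nil =>
      exfalso
      rw [EZ_nil, EZ_cons] at h1
      have h3 := congrArg List.length h1
      rw [List.length_append] at h3
      cases s with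
      | lt f => simp only [szw, List.length_cons, List.length_nil] at h3; omega
      | bl i d f =>
        have hb := blk_pos T (v i)
        simp only [szw, List.length_map, List.length_nil] at h3
        omega
    | cons s' W' =>
      rw [EZ_cons, EZ_cons] at h1
      cases s with
      | lt e =>
        cases s' with
        | lt e' =>
          simp only [szw, List.singleton_append, List.cons.injEq] at h1
          rw [Ps_lt, Ps_lt] at h2
          rw [lab_lt, lab_lt] at hl
          rw [drs_lt, drs_lt] at hd
          rw [h1.1, ih W' (o + 1) h1.2 h2 hl hd]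
        | bl i d f =>
          exfalso
          have h3 : o ∈ Ps T v o (.lt e :: W) := by
            rw [h2, Ps_bl]
            exact Finset.mem_insert_self _ _
          rw [Ps_lt] at h3
          have := Ps_ge T v W (o + 1) _ h3
          omega
      | bl i d f =>
        have hb := blk_pos T (v i)
        cases s' with
        | lt e' =>
          exfalso
          have h3 : o ∈ Ps T v o (.lt e' :: W') := by
            rw [← h2, Ps_bl]
            exact Finset.mem_insert_self _ _
          rw [Ps_lt] at h3
          have := Ps_ge T v W' (o + 1) _ h3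
          omega
        | bl i' d' f' =>
          rw [lab_bl, lab_bl, List.cons.injEq] at hl
          rw [drs_bl, drs_bl, List.cons.injEq, Prod.mk.injEq] at hd
          obtain ⟨rfl, hl⟩ := hl
          obtain ⟨⟨rfl, rfl⟩, hd⟩ := hd
          have h5 := List.append_cancel_left h1
          have hn : ∀ X : List Sz, o ∉ Ps T v (o + (blk T (v i)).length) X := by
            intro X hX
            have := Ps_ge T v X _ _ hX
            omega
          have h6 : Ps T v (o + (blk T (v i)).length) W =
              Ps T v (o + (blk T (v i)).length) W' := by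
            have h7 := congrArg (fun S => Finset.erase S o) h2
            simp only [Ps_bl] at h7
            rwa [Finset.erase_insert (hn W), Finset.erase_insert (hn W')] at h7
          rw [ih W' _ h5 h6 hl hd]

/-- the positions of the blocks of all words which give the same polygon -/
theorem positions {𝒬 : List V → Prop} {ks : ℕ → List V} {N M : ℕ} (hno : NoM 𝒬 ks N M)
    {T L B : ℕ} {v : ℕ → List Dir} (hv : SmB L B v) (hs : ∀ i, Same (vl (.zm :: v i)) (ks i))
    (n : ℕ) (hn : M * (B + 2 * T) + 3 ≤ n) (w : List Dir) :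
    ∃ J : Finset ℕ, J.card ≤ (N + M) * (2 * (B + 2 * T)) ∧
      ∀ W ∈ (VZ 𝒬 T L v N n).filter (fun W => EZ T v W = w), Ps T v 0 W ⊆ J := by
  obtain ⟨D, hD⟩ : ∃ D, D = B + 2 * T := ⟨_, rfl⟩
  have hD1 : 1 ≤ D := by
    rw [hD]
    exact (blk_pos T (v 0)).trans (blk_le hv T 0)
  rw [← hD] at hn ⊢
  obtain ⟨F, hF⟩ : ∃ F, F = (VZ 𝒬 T L v N n).filter (fun W => EZ T v W = w) := ⟨_, rfl⟩
  rw [← hF]
  rcases F.eq_empty_or_nonempty with he | ⟨W0, hW0⟩
  · rw [he]
    exact ⟨∅, by simp, by simp⟩
  rw [hF, Finset.mem_filter, q_mem] at hW0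
  obtain ⟨⟨hl0, hn0, hV0⟩, hw0⟩ := hW0
  have hl1 : M * (B + 2 * T) + 3 ≤ W0.length := by rw [hl0, ← hD]; exact hn
  obtain ⟨P0, hP0⟩ : ∃ P0 : Finset ℕ, P0 = (Sp T v 0 W0).image Prod.fst := ⟨_, rfl⟩
  obtain ⟨S, hS⟩ : ∃ S : Finset ℕ, S = (Finset.range (w.length + 1)).filter (fun m =>
    (∀ p ∈ P0, m + D ≤ p ∨ p + D ≤ m) ∧ ∃ W ∈ F, ∃ (i : ℕ) (d f : Dir),
      (m, i, d, f) ∈ Sp T v 0 W) := ⟨_, rfl⟩
  set sep : Finset ℕ → Prop := fun P => ∀ p ∈ P, ∀ q ∈ P, p ≠ q → p + D ≤ q ∨ q + D ≤ p
    with hsep
  obtain ⟨P, hP, hmax⟩ := Finset.exists_max_image (S.powerset.filter sep) Finset.card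
    ⟨∅, by rw [Finset.mem_filter]; exact ⟨Finset.empty_mem_powerset _, by simp [hsep]⟩⟩
  rw [Finset.mem_filter, Finset.mem_powerset] at hP
  obtain ⟨hPS, hPsep⟩ := hP
  have hPM : P.card < M := by
    by_contra hcon
    rw [not_lt] at hcon
    obtain ⟨P', hP'sub, hP'card⟩ := Finset.exists_subset_card_eq hcon
    set g : ℕ → ℕ := fun j => if h : j < M then (P'.orderEmbOfFin hP'card ⟨j, h⟩) else 0 with hg
    have hgm : ∀ j < M, g j ∈ P' := by
      intro j hj
      simp only [hg, dif_pos hj]
      exact Finset.orderEmbOfFin_mem P' hP'card _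
    have hgi : ∀ j < M, ∀ k < M, j ≠ k → g j ≠ g k := by
      intro j hj k hk hjk he
      simp only [hg, dif_pos hj, dif_pos hk] at he
      have := (P'.orderEmbOfFin hP'card).injective he
      rw [Fin.mk.injEq] at this
      exact hjk this
    have hch : ∀ j, ∃ (i : ℕ) (d f : Dir) (l1 l2 : List Dir), j < M →
        i < N ∧ OV.VB T L v w i d f l1 l2 ∧ l1.length = g j := by
      intro j
      by_cases hj : j < M
      · have h1 := hPS (hP'sub (hgm j hj))
        rw [hS, Finset.mem_filter] at h1
        obtain ⟨-, -, W, hW, i, d, f, hm⟩ := h1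
        rw [hF, Finset.mem_filter, q_mem] at hW
        obtain ⟨⟨_, hlab, hV⟩, hw⟩ := hW
        obtain ⟨A, B', h2, h3⟩ := Sp_mem T v W 0 (g j) i d f hm
        refine ⟨i, d, f, EZ T v A, EZ T v B', fun _ => ⟨?_, ?_, by omega⟩⟩
        · have h7 := lab_mem h2
          rw [hlab.mem_iff, List.mem_range] at h7
          exact h7
        · rw [← hw]
          exact OV.vb_of hV h2
      · exact ⟨0, .xp, .xp, [], [], fun h => absurd h hj⟩
    choose σ d f l1 l2 h using hch
    refine OV.ovr (q_type OV.TT0_TC) e_bas T_Wrep_proof T_rtc_proof hno hv hs hV0 hl1 σ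
      (fun j hj => (h j hj).1) d f l1 l2
      (fun j hj => by rw [hw0]; exact (h j hj).2.1) ?_ ?_
    · intro j hj A B' i' d' f' h2
      have h1 := hPS (hP'sub (hgm j hj))
      rw [hS, Finset.mem_filter] at h1
      have h3 : (EZ T v A).length ∈ P0 := by
        rw [hP0, Finset.mem_image]
        refine ⟨(0 + (EZ T v A).length, i', d', f'), ?_, by simp⟩
        rw [h2]; exact mem_Sp T v A B' 0 i' d' f'
      rw [(h j hj).2.2, ← hD]
      exact h1.2.1 _ h3
    · intro j hj k hk hjk
      rw [(h j hj).2.2, (h k hk).2.2, ← hD]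
      exact hPsep _ (hP'sub (hgm j hj)) _ (hP'sub (hgm k hk)) (hgi j hj k hk hjk)
  have hPc : (P0 ∪ P).card ≤ N + M := by
    refine (Finset.card_union_le _ _).trans (Nat.add_le_add ?_ hPM.le)
    rw [hP0]
    refine Finset.card_image_le.trans ((Sp_card T v W0 0).trans ?_)
    rw [hn0.length_eq, List.length_range]
  refine ⟨(P0 ∪ P).biUnion (fun q => Finset.Ico (q + 1 - D) (q + D)), ?_, ?_⟩
  · refine Finset.card_biUnion_le.trans ?_
    calc ∑ q ∈ P0 ∪ P, (Finset.Ico (q + 1 - D) (q + D)).card
        ≤ ∑ _q ∈ P0 ∪ P, 2 * D := by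
          refine Finset.sum_le_sum fun q _ => ?_
          rw [Nat.card_Ico]
          omega
      _ = (P0 ∪ P).card * (2 * D) := by rw [Finset.sum_const, smul_eq_mul]
      _ ≤ (N + M) * (2 * D) := Nat.mul_le_mul_right _ hPc
  · intro W hW m0 hm0
    have hWF : W ∈ F := hW
    rw [hF, Finset.mem_filter, q_mem] at hW
    obtain ⟨⟨_, hlab, hV⟩, hw⟩ := hW
    unfold Ps at hm0
    rw [Finset.mem_image] at hm0
    obtain ⟨⟨m, i, d, f⟩, hm, rfl⟩ := hm0
    show m ∈ _
    obtain ⟨A, B', h1, h2⟩ := Sp_mem T v W 0 m i d f hm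
    rw [Finset.mem_biUnion]
    by_cases hnear : ∀ p ∈ P0, m + D ≤ p ∨ p + D ≤ m
    · have hmS : m ∈ S := by
        rw [hS, Finset.mem_filter, Finset.mem_range]
        refine ⟨?_, hnear, W, hWF, i, d, f, hm⟩
        have h8 := congrArg List.length hw
        rw [h1, EZ_append, List.length_append] at h8
        omega
      by_cases hmP : m ∈ P
      · refine ⟨m, Finset.mem_union_right _ hmP, ?_⟩
        simp only [Finset.mem_Ico]
        omega
      · by_contra hcon
        have hins : insert m P ∈ S.powerset.filter sep := by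
          rw [Finset.mem_filter, Finset.mem_powerset]
          refine ⟨Finset.insert_subset hmS hPS, ?_⟩
          have hmp : ∀ p ∈ P, m + D ≤ p ∨ p + D ≤ m := by
            intro p hp
            by_contra hc
            apply hcon
            refine ⟨p, Finset.mem_union_right _ hp, ?_⟩
            simp only [Finset.mem_Ico]
            omega
          intro p hp q hq hpq
          rw [Finset.mem_insert] at hp hq
          rcases hp with rfl | hp <;> rcases hq with rfl | hq
          · exact absurd rfl hpq
          · exact hmp q hq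
          · exact (hmp p hp).symm
          · exact hPsep p hp q hq hpq
        have h9 := hmax _ hins
        rw [Finset.card_insert_of_notMem hmP] at h9
        omega
    · push Not at hnear
      obtain ⟨p, hp, h3, h4⟩ := hnear
      refine ⟨p, Finset.mem_union_left _ hp, ?_⟩
      simp only [Finset.mem_Ico]
      omega

/-- multiplicity of the words -/
theorem mult {𝒬 : List V → Prop} {ks : ℕ → List V} {N M : ℕ} (hno : NoM 𝒬 ks N M)
    {T L B : ℕ} {v : ℕ → List Dir} (hv : SmB L B v) (hs : ∀ i, Same (vl (.zm :: v i)) (ks i))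
    (n : ℕ) (hn : M * (B + 2 * T) + 3 ≤ n) (w : List Dir) :
    ((VZ 𝒬 T L v N n).filter (fun W => EZ T v W = w)).card ≤
      2 ^ ((N + M) * (2 * (B + 2 * T))) * (N.factorial * 36 ^ N) := by
  obtain ⟨J, hJ, hsub⟩ := positions hno hv hs n hn w
  have hcard : (J.powerset ×ˢ (((List.range N).permutations.toFinset) ×ˢ
      ((univ : Finset (Fin N → Dir × Dir)).image List.ofFn))).card ≤
      2 ^ ((N + M) * (2 * (B + 2 * T))) * (N.factorial * 36 ^ N) := by
    rw [card_product, card_product, card_powerset]
    refine Nat.mul_le_mul (Nat.pow_le_pow_right (by norm_num) hJ) (Nat.mul_le_mul ?_ ?_)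
    · refine (List.toFinset_card_le _).trans ?_
      rw [List.length_permutations, List.length_range]
    · refine Finset.card_image_le.trans ?_
      rw [Finset.card_univ, Fintype.card_fun, Fintype.card_fin, Fintype.card_prod]
      have : Fintype.card Dir = 6 := rfl
      rw [this]
  refine le_trans ?_ hcard
  refine Finset.card_le_card_of_injOn (fun W => (Ps T v 0 W, lab W, drs W)) ?_ ?_
  · intro W hW
    rw [Finset.mem_coe] at hW
    have h1 := hsub W hW
    rw [Finset.mem_filter, q_mem] at hW
    obtain ⟨⟨_, hlab, hV⟩, hw⟩ := hW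
    rw [Finset.mem_coe, mem_product, mem_product]
    refine ⟨Finset.mem_powerset.2 h1, ?_, ?_⟩
    · rw [List.mem_toFinset, List.mem_permutations]
      exact hlab
    · rw [Finset.mem_image]
      have hlen : (drs W).length = N := by
        rw [drs_length, hlab.length_eq, List.length_range]
      refine ⟨fun i => (drs W).get (Fin.cast hlen.symm i), Finset.mem_univ _, ?_⟩
      apply List.ext_getElem
      · rw [List.length_ofFn, hlen]
      · intro i h2 h3
        rw [List.getElem_ofFn]
        rfl
  · intro W hW W' hW' he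
    rw [Finset.mem_coe, Finset.mem_filter] at hW hW'
    simp only [Prod.mk.injEq] at he
    exact inj2 T v W W' 0 (by rw [hW.2, hW'.2]) he.1 he.2.1 he.2.2

end Pool.Agent.T6.H44.LK
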