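import Pool.Agent.T6.H44.LK.Mul
import Pool.Agent.TH945.KQ.FNOM

/-!
Adding many summands of the same kind: the inequality between the numbers of words, uniformly in the
number of the summands and in the class.
-/

set_option autoImplicit false

namespace Pool.Agent.T6.H44.LK

open Finset Filter Topology KN KN.KQ
open scoped Classical

/-- `l` is a connected sum of a polygon and `M` polygons of the type of `k` -/
def Has (k : List V) (M : ℕ) (l : List V) : Prop := SumsC (fun _ => True) (fun _ => k) M l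

theorem SumsC_TC {𝒬 : List V → Prop} (hQ : TC 𝒬) (ks : ℕ → List V) : ∀ N, TC (SumsC 𝒬 ks N)
  | 0 => hQ
  | _ + 1 => fun _ _ h ⟨l1, v, l2, h1, h2, h3, h4⟩ => ⟨l1, v, l2, h1, h2, h3, h.symm.trans h4⟩

theorem Has_TC (k : List V) (M : ℕ) : TC (Has k M) := SumsC_TC (fun _ _ _ _ => trivial) _ M

theorem Has_mono {k : List V} : ∀ {M : ℕ} {l : List V}, Has k (M + 1) l → Has k M l
  | 0, _, _ => trivial
  | _ + 1, _, ⟨l1, v, l2, h1, h2, h3, h4⟩ => ⟨l1, v, l2, h1, Has_mono h2, h3, h4⟩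

theorem Has_le {k : List V} {M M' : ℕ} (h : M ≤ M') {l : List V} (hl : Has k M' l) : Has k M l := by
  induction M' with
  | zero =>
    have : M = 0 := by omega
    rw [this]
    exact hl
  | succ M' ih =>
    rcases Nat.lt_or_ge M (M' + 1) with h1 | h1
    · exact ih (by omega) (Has_mono hl)
    · have : M = M' + 1 := by omega
      rw [this]
      exact hl

/-- the inequality with `N` further summands -/
theorem main_unif (k : List V) (hk : ∃ w, SAP w ∧ Same (vl w) k) :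
    ∃ (c₁ c₂ : ℝ) (Kc D b n₀ : ℕ), 0 < c₁ ∧ 0 < c₂ ∧ 1 ≤ Kc ∧ 1 ≤ n₀ ∧ b % 2 = 0 ∧
      ∀ 𝒬 : List V → Prop, TC 𝒬 → ∀ n : ℕ, n₀ ≤ n → ∀ N M : ℕ,
      (N : ℝ) ≤ c₂ * (n : ℝ) ^ (2 / 3 : ℝ) → M * D + 3 ≤ n → (∀ l, 𝒬 l → ¬ Has k M l) →
      (c₁ * (n : ℝ) ^ (2 / 3 : ℝ)) ^ N * a (fun w => 𝒬 (vl w)) n ≤
        (Kc : ℝ) ^ (N + M) * N.factorial *
          a (fun w => SumsC 𝒬 (fun _ => k) N (vl w)) (n + N * b) := by
  obtain ⟨L, v0, hv0, hvk⟩ := T_vex_proof k hk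
  obtain ⟨T, hT⟩ : ∃ T, T = 2 * L + 4 := ⟨_, rfl⟩
  obtain ⟨B, hB⟩ : ∃ B, B = (blk 0 v0).length := ⟨_, rfl⟩
  have hv : SmB L B (fun _ => v0) := fun _ => ⟨hv0, hB.ge⟩
  obtain ⟨R, hR, hLR⟩ := d_LL T L hT.ge
  obtain ⟨c₁, c₂, n₀, hc₁, hc₂, hn₀, h⟩ := blocks T L B R (fun _ => v0) hv hLR hR
  obtain ⟨b, hb⟩ : ∃ b, b = (blk T v0).length - 1 := ⟨_, rfl⟩
  refine ⟨c₁, c₂, 36 * 4 ^ (B + 2 * T), B + 2 * T, b, n₀, hc₁, hc₂, Nat.one_le_iff_ne_zero.2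
    (by positivity), hn₀, ?_, ?_⟩
  · have hlen : (blk T v0).length = 2 * (T + 1) + v0.length := by
      unfold blk
      simp only [List.length_append, List.length_replicate]
      omega
    have hodd : (v0.length + 1) % 2 = 0 := by
      have h2 := even_of_closed (hv0.1.2.1)
      simpa using h2
    omega
  intro 𝒬 hQ n hn N M hN hM hno
  have hNo : NoM 𝒬 (fun _ => k) N M := fun σ _ l hl => hno l hl
  have h1 := h 𝒬 hQ n hn N hN
  obtain ⟨C, hC⟩ : ∃ C, C = 2 ^ ((N + M) * (2 * (B + 2 * T))) * (N.factorial * 36 ^ N) := ⟨_, rfl⟩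
  have hsum : ∀ W : List Sz, (lab W).Perm (List.range N) →
      ((lab W).map (fun _ => (blk T v0).length - 1)).sum = N * b := by
    intro W hW
    rw [List.map_const', List.sum_replicate, hW.length_eq, List.length_range, smul_eq_mul, hb]
  have h3 : (VZ 𝒬 T L (fun _ => v0) N n).card ≤
      C * a (fun w => SumsC 𝒬 (fun _ => k) N (vl w)) (n + N * b) := by
    have h4 : (VZ 𝒬 T L (fun _ => v0) N n).card ≤
        C * ((VZ 𝒬 T L (fun _ => v0) N n).image (EZ T (fun _ => v0))).card := by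
      apply Finset.card_le_mul_card_image
      intro w _
      rw [hC]
      exact mult hNo hv (fun _ => hvk) n hM w
    refine h4.trans (Nat.mul_le_mul_left _ ?_)
    unfold a
    apply Finset.card_le_card
    intro w hw
    obtain ⟨W, hW, rfl⟩ := Finset.mem_image.1 hw
    obtain ⟨hW1, hW2, hW3⟩ := (q_mem T L (fun _ => v0) N n W).1 hW
    rw [mem_K]
    refine ⟨?_, hW3.ext, ?_⟩
    · rw [(e_bas T L B (fun _ => v0) hv W).2.2.1, hW1, hsum W hW2]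
    · exact q_type hQ (fun _ => k) T L B (fun _ => v0) hv N (fun i _ => hvk) W hW2 hW3
  have hC' : C ≤ (36 * 4 ^ (B + 2 * T)) ^ (N + M) * N.factorial := by
    rw [hC]
    have e1 : 2 ^ ((N + M) * (2 * (B + 2 * T))) = (4 ^ (B + 2 * T)) ^ (N + M) := by
      rw [← pow_mul, show (4 : ℕ) = 2 ^ 2 by norm_num, ← pow_mul]
      congr 1
      ring
    have e2 : 36 ^ N ≤ 36 ^ (N + M) := Nat.pow_le_pow_right (by norm_num) (by omega)
    rw [e1, mul_pow]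
    calc (4 ^ (B + 2 * T)) ^ (N + M) * (N.factorial * 36 ^ N)
        ≤ (4 ^ (B + 2 * T)) ^ (N + M) * (N.factorial * 36 ^ (N + M)) := by gcongr
      _ = 36 ^ (N + M) * (4 ^ (B + 2 * T)) ^ (N + M) * N.factorial := by ring
  refine h1.trans ?_
  have h5 : ((VZ 𝒬 T L (fun _ => v0) N n).card : ℝ) ≤
      ((C * a (fun w => SumsC 𝒬 (fun _ => k) N (vl w)) (n + N * b) : ℕ) : ℝ) := by
    exact_mod_cast h3
  refine h5.trans ?_
  have h6 : C * a (fun w => SumsC 𝒬 (fun _ => k) N (vl w)) (n + N * b) ≤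
      (36 * 4 ^ (B + 2 * T)) ^ (N + M) * N.factorial *
        a (fun w => SumsC 𝒬 (fun _ => k) N (vl w)) (n + N * b) := Nat.mul_le_mul_right _ hC'
  have h7 : ((C * a (fun w => SumsC 𝒬 (fun _ => k) N (vl w)) (n + N * b) : ℕ) : ℝ) ≤
      (((36 * 4 ^ (B + 2 * T)) ^ (N + M) * N.factorial *
        a (fun w => SumsC 𝒬 (fun _ => k) N (vl w)) (n + N * b) : ℕ) : ℝ) := by exact_mod_cast h6
  refine h7.trans (le_of_eq ?_)
  push_cast
  ring

/-- `pq` form -/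
theorem main_pq (k : List V) (hk : ∃ w, SAP w ∧ Same (vl w) k) :
    ∃ (c₁ c₂ Kc : ℝ) (D b n₀ : ℕ), 0 < c₁ ∧ 0 < c₂ ∧ 1 ≤ Kc ∧ 1 ≤ n₀ ∧
      ∀ 𝒬 : List V → Prop, TC 𝒬 → ∀ n : ℕ, n₀ ≤ n → ∀ N M : ℕ,
      (N : ℝ) ≤ c₂ * (n : ℝ) ^ (2 / 3 : ℝ) → M * D + 3 ≤ n → (∀ l, 𝒬 l → ¬ Has k M l) →
      (c₁ * (n : ℝ) ^ (2 / 3 : ℝ)) ^ N * pq (fun w => 𝒬 (vl w)) n ≤
        Kc ^ (N + M) * N.factorial *
          pq (fun w => SumsC 𝒬 (fun _ => k) N (vl w)) (n + N * (2 * b)) := by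
  obtain ⟨c₁, c₂, Kc, D, b', n₀, hc₁, hc₂, hK, hn₀, hb, h⟩ := main_unif k hk
  obtain ⟨b, rfl⟩ : ∃ b, b' = 2 * b := ⟨b' / 2, by omega⟩
  have hK1 : (1 : ℝ) ≤ Kc := by exact_mod_cast hK
  refine ⟨c₁, c₂, Kc * (1 + 2 * b), D, b, n₀, hc₁, hc₂, ?_, hn₀, ?_⟩
  · have : (0 : ℝ) ≤ b := Nat.cast_nonneg b
    nlinarith
  intro 𝒬 hQ n hn N M hN hM hno
  have h1 := h 𝒬 hQ n hn N M hN hM hno
  have hn0 : 0 < n := by omega
  have hnr : (1 : ℝ) ≤ n := by exact_mod_cast hn0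
  have hb0 : (0 : ℝ) ≤ b := Nat.cast_nonneg b
  have hN0 : (0 : ℝ) ≤ N := Nat.cast_nonneg N
  obtain ⟨x, hx⟩ : ∃ x : ℝ, x = (a (fun w => 𝒬 (vl w)) n : ℝ) := ⟨_, rfl⟩
  obtain ⟨y, hy⟩ : ∃ y : ℝ, y = (a (fun w => SumsC 𝒬 (fun _ => k) N (vl w)) (n + N * (2 * b)) : ℝ) :=
    ⟨_, rfl⟩
  have hy0 : 0 ≤ y := by rw [hy]; exact Nat.cast_nonneg _
  rw [← hx, ← hy] at h1
  unfold pq
  rw [← hx, ← hy, ← mul_div_assoc, ← mul_div_assoc, div_le_div_iff₀ (by positivity) (by positivity)]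
  have h2 : ((n + N * (2 * b) : ℕ) : ℝ) ≤ n * (1 + 2 * b) ^ (N + M) := by
    have h3 : 1 + (N : ℝ) * (2 * b) ≤ (1 + 2 * b) ^ N := one_add_mul_le_pow (by linarith) N
    have h4 : (1 + 2 * (b : ℝ)) ^ N ≤ (1 + 2 * b) ^ (N + M) :=
      pow_le_pow_right₀ (by linarith) (by omega)
    push_cast
    have h5 : (0 : ℝ) ≤ N * (2 * b) := by positivity
    nlinarith
  have h6 : (0 : ℝ) ≤ (Kc : ℝ) ^ (N + M) * N.factorial * y := by positivity
  calc (c₁ * (n : ℝ) ^ (2 / 3 : ℝ)) ^ N * x * (2 * ((n + N * (2 * b) : ℕ) : ℝ))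
      ≤ (Kc : ℝ) ^ (N + M) * N.factorial * y * (2 * ((n + N * (2 * b) : ℕ) : ℝ)) :=
        mul_le_mul_of_nonneg_right h1 (by positivity)
    _ ≤ (Kc : ℝ) ^ (N + M) * N.factorial * y * (2 * (n * (1 + 2 * b) ^ (N + M))) :=
        mul_le_mul_of_nonneg_left (by linarith) h6
    _ = (Kc * (1 + 2 * b)) ^ (N + M) * N.factorial * y * (2 * n) := by
        rw [mul_pow]
        ring

end Pool.Agent.T6.H44.LK
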